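import Pool.Agent.KS6_58.PT3b

/-!
# The odd part of the length of a rational cycle of `P + c` is bounded, for every polynomial `P`

Let `K` be a number field and `P` any polynomial over `K` of degree `d ≥ 6`.

* (1) There is `B` such that for ALL `c` in `K` and every `K`-rational periodic point `x` of
  `f_c(x) = P(x) + c`, every odd divisor of the exact period of `x` is at most `B`. So the length of
  every `K`-rational cycle of `f_c` is a power of two times an odd number `≤ B`.
* (2) For every `a` there is `B` such that for ALL `c` in `K` the polynomial `f_c` has at most `B`
  periodic points in `K` whose exact period is not divisible by `2 ^ a`.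
* (3) The same uniformly in `P`: given `K`, `d ≥ 6` and `N ≥ 1` there are `B` and `A` such that for all
  monic `P` of degree `d` with coefficients in the ring of integers with `1 / N` adjoined, and all `c` in
  `K` whose height is at least `A (1 + the sum of the heights of the coefficients of P)`, the odd
  divisors of the exact periods of `K`-rational periodic points of `P(x) + c` are at most `B`.

There is no hypothesis on the places of bad reduction, and no conjecture is used.

Proof. Let `n = d - 1 ≥ 5`, `P` monic. At a place `v` of bad reduction outside a finite set depending on
`P` one has `|x|_v = R`, `R ^ d = |c|_v`, for all preperiodic points, and `|x - y|_v = R ^ (1 - n k)` for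
some natural number `k` if `x ≠ y` are preperiodic. At a place of good reduction
`|x_i - x_j|_v` depends, on a cycle of length `L`, only on the greatest common divisor of `i - j` and
`L`. If an odd prime power `p ^ b` divides `L`, the points `x_0, x_m, x_2m`, `m = L / p`, and their
shifts by the multiples of `L / p ^ b` have differences whose ratios are units at these places and have
valuations divisible by `n` at the bad ones: so `s = (x_0 - x_m) / (x_m - x_2m)` and `s + 1` are both of
the form `t z ^ n`, with `t` in a finite set depending only on `K`, `d`, `N`. These are points on
finitely many curves of genus at least two with a Jacobian of known structure; the heights of such `s`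
along the cycle are between two fixed multiples of the height of `c` (Lagrange interpolation on `d + 1`
points bounds them from below), and the quantitative Mumford gap principle of `Pool/Agent/KS6_58`
(weak Mordell-Weil, finite rank, gap) bounds their number uniformly.
-/

set_option autoImplicit false

namespace Pool.Agent.Results.MP_c076ed_nt.OddPartOfCycles

open Polynomial Function Height

/-- **The odd part of the length of a rational cycle of `P + c` is bounded**: for every polynomial `P` of
degree at least `6` over a number field, for all `c`; and uniformly in `P`. -/
theorem result :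
    (∀ (K : Type) [Field K] [NumberField K] (P : K[X]), 6 ≤ P.natDegree →
      ∃ B : ℕ, ∀ c x : K, x ∈ periodicPts (fun y : K => P.eval y + c) → ∀ m : ℕ, Odd m →
        m ∣ minimalPeriod (fun y : K => P.eval y + c) x → m ≤ B) ∧
    (∀ (K : Type) [Field K] [NumberField K] (P : K[X]), 6 ≤ P.natDegree → ∀ a : ℕ,
      ∃ B : ℕ, ∀ c : K, {x : K | x ∈ periodicPts (fun y : K => P.eval y + c) ∧
        ¬ 2 ^ a ∣ minimalPeriod (fun y : K => P.eval y + c) x}.encard ≤ B) ∧
    (∀ (K : Type) [Field K] [NumberField K] (d N : ℕ), 6 ≤ d → N ≠ 0 →
      ∃ (B : ℕ) (A : ℝ), ∀ P : K[X], P.Monic → P.natDegree = d →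
        (∀ i, ∃ k : ℕ, IsIntegral ℤ ((N : K) ^ k * P.coeff i)) → ∀ c : K,
        A * (1 + ∑ i ∈ Finset.range d, logHeight₁ (P.coeff i)) ≤ logHeight₁ c → ∀ x : K,
        x ∈ periodicPts (fun y : K => P.eval y + c) → ∀ m : ℕ, Odd m →
        m ∣ minimalPeriod (fun y : K => P.eval y + c) x → m ≤ B) :=
  ⟨fun _ _ _ P hd => Pool.Agent.KS6_58.odd_part P hd,
    fun _ _ _ P hd a => Pool.Agent.KS6_58.odd_count P hd a,
    fun K _ _ _ _ hd hN => Pool.Agent.KS6_58.odd_part_unif K hd hN⟩

end Pool.Agent.Results.MP_c076ed_nt.OddPartOfCycles
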