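import Pool.Agent.KS6_58.PT2c

/-!
# Uniform boundedness of rational periodic points of `G(x ^ m) + c`

Let `K` be a number field, `m ≥ 3`, and let `G` be any polynomial over `K` with `m * deg G ≥ 6`.

* (1) There is `B` such that for ALL `c` in `K` the polynomial `f_c(x) = G(x ^ m) + c` has at most `B`
  periodic points in `K`, and at most `B` preperiodic points in `K` unless it has just one periodic
  point (or none) in `K`.
* (2) The same uniformly in `G`: given `K`, `m ≥ 3`, `e` with `m e ≥ 6`, and `N ≥ 1` there are `B` and `A`
  such that the conclusion of (1) holds with this `B` for all monic `G` of degree `e` with coefficients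
  in the ring of integers with `1 / N` adjoined, and all `c` in `K` whose height is at least
  `A (1 + the sum of the heights of the coefficients of G)`.

There is no hypothesis on the places of bad reduction, and no conjecture is used.

Proof. Let `d = m e`, `n = d - 1 ≥ 5`, `P = G(x ^ m)` monic, and let `ζ` be a primitive `m`-th root of
unity. At a place `v` of bad reduction outside a finite set depending on `G` one has `|x|_v = R`,
`R ^ d = |c|_v`, for all preperiodic points `x`, and `|x - y|_v = R ^ (1 - n k)` for some natural
number `k` if `x ≠ y` are preperiodic; the points `ζ ^ i x` are preperiodic too. At a place of good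
reduction `|x - ζ ^ i y|_v = 1` for periodic `x ≠ y` and `0 < i < m`, since `f(x) - f(y)` is divisible
by the product of all `x - ζ ^ i y` and has the same absolute value as `x - y`. So the quotients of
the `x - ζ ^ i y` by each other are of the form `t z ^ n`, with `t` in a finite set depending only on
`K`, `m`, `e`, `N`. As `m ≥ 3` this gives points on finitely many curves of genus at least two
with a Jacobian of known structure. Their heights are between two fixed multiples of the height of `c`
(Lagrange interpolation on `d + 1` points gives the lower bound), and the quantitative Mumford gap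
principle of `Pool/Agent/KS6_58` (weak Mordell-Weil, finite rank, gap) bounds their number uniformly.
Tails are compared with two periodic points.
-/

set_option autoImplicit false

namespace Pool.Agent.Results.MP_c076ed_nt.PowerSymmetricFamilies

open Polynomial Function Height

/-- **Uniform boundedness of rational periodic points for `G(x ^ m) + c`**, `m ≥ 3`, over number fields:
for every `G` and all `c`; and uniformly in `G`. -/
theorem result :
    (∀ (K : Type) [Field K] [NumberField K] (m : ℕ), 3 ≤ m → ∀ G : K[X], 6 ≤ m * G.natDegree →
      ∃ B : ℕ, ∀ c : K,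
        {x : K | x ∈ periodicPts (fun y : K => G.eval (y ^ m) + c)}.encard ≤ B ∧
        (1 < {x : K | x ∈ periodicPts (fun y : K => G.eval (y ^ m) + c)}.encard →
          {x : K | ∃ i j : ℕ, i < j ∧ (fun y : K => G.eval (y ^ m) + c)^[i] x =
            (fun y : K => G.eval (y ^ m) + c)^[j] x}.encard ≤ B)) ∧
    (∀ (K : Type) [Field K] [NumberField K] (m e N : ℕ), 3 ≤ m → 6 ≤ m * e → N ≠ 0 →
      ∃ (B : ℕ) (A : ℝ), ∀ G : K[X], G.Monic → G.natDegree = e →
        (∀ i, ∃ k : ℕ, IsIntegral ℤ ((N : K) ^ k * G.coeff i)) → ∀ c : K,
        A * (1 + ∑ i ∈ Finset.range e, logHeight₁ (G.coeff i)) ≤ logHeight₁ c →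
        {x : K | x ∈ periodicPts (fun y : K => G.eval (y ^ m) + c)}.encard ≤ B ∧
        (1 < {x : K | x ∈ periodicPts (fun y : K => G.eval (y ^ m) + c)}.encard →
          {x : K | ∃ i j : ℕ, i < j ∧ (fun y : K => G.eval (y ^ m) + c)^[i] x =
            (fun y : K => G.eval (y ^ m) + c)^[j] x}.encard ≤ B)) :=
  ⟨fun _ _ _ m hm G he => Pool.Agent.KS6_58.sym_fixed m hm G he,
    fun K _ _ _ _ _ hm he hN => Pool.Agent.KS6_58.sym_unif K hm he hN⟩

end Pool.Agent.Results.MP_c076ed_nt.PowerSymmetricFamilies
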