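import Pool.Agent.KS6_58.RP3

/-!
# Uniform boundedness for families of rational functions `1 / F`, not conjugate to polynomials

For a polynomial `F` over a field `K` let `1 / F` be the self-map `x ↦ 1 / F(x)`, `∞ ↦ 0`, of the
projective line. Let `K` be any number field.

* (1) For every `d ≥ 4` and every `a ≠ 0` in `K` there is `B` such that for ALL `c` in `K` the rational
  function `1 / (a x ^ d + c)` of degree `d` has at most `B` preperiodic points in `P^1(K)`.
* (2) For every `m ≥ 4` and every nonconstant polynomial `G` over `K` there is `B` such that for ALL `c`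
  in `K` the rational function `1 / (G(x ^ m) + c)` has at most `B` periodic points in `P^1(K)`.
* (3) The same uniformly in `G`: given `K`, `m ≥ 4`, `e ≥ 1` and `N ≥ 1` there are `B` and `A` such that
  the conclusion of (2) holds with this `B` for all monic `G` of degree `e` with coefficients in the ring
  of integers with `1 / N` adjoined, and all `c` in `K` whose height is at least
  `A (1 + the sum of the heights of the coefficients of G)`.

These maps are never conjugate to polynomials. There is no hypothesis on the places of bad reduction, and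
no conjecture is used.

Proof of (1) (for `K` containing the `d`-th roots of unity, `a = 1`). Let `g = 1 / (x ^ d + c)`. At a
place `v` of bad reduction not dividing `d` all points with `|x| ≠ R`, `R ^ d = |c|_v`, are attracted by
a fixed point `p` with `|p| = R ^ (-d)`; a rational preperiodic point `x` whose second image is not
fixed has `|x| = R`, and two such points have distance `R ^ (1 - (d + 1) k)`, since `g` multiplies
distances `< R` by `R ^ (d + 1)`. At a place of good reduction the chordal distance satisfies
`δ(g x, g y) = ∏ δ(x, ζ y)`, the product over the `d`-th roots of unity, so that `δ(x, ζ y) = 1` for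
periodic `x ≠ y` and `ζ ≠ 1`, and similarly for tails. Hence the ratios `l = x / y` satisfy
`(l - ζ) / (l - ζ') = t z ^ (d + 1)` with `t` in a finite set, for all `ζ, ζ' ≠ 1`. As `d + 1 ≥ 5` and
there are three roots `ζ ≠ 1`, this gives points on finitely many curves of genus at least two
with a Jacobian of known structure. The heights of the ratios are between two multiples of the height of
`c`, and the quantitative Mumford gap principle of `Pool/Agent/KS6_58` (weak Mordell-Weil, finite rank,
gap) bounds their number uniformly.
-/

set_option autoImplicit false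

namespace Pool.Agent.Results.MP_c076ed_nt.ReciprocalFamilies

open Polynomial Function Height

open Classical in
/-- The self-map `x ↦ 1 / F(x)`, `∞ ↦ 0`, of the projective line over `K`. -/
noncomputable def oneOver {K : Type} [Field K] (F : K → K) : OnePoint K → OnePoint K
  | none => ((0 : K) : OnePoint K)
  | some x => if F x = 0 then OnePoint.infty else (((F x)⁻¹ : K) : OnePoint K)

/-- **Uniform boundedness for `1 / (a x ^ d + c)` (preperiodic points, `d ≥ 4`) and for
`1 / (G(x ^ m) + c)` (periodic points, `m ≥ 4`) over number fields.** -/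
theorem result :
    (∀ (K : Type) [Field K] [NumberField K] (d : ℕ), 4 ≤ d → ∀ a : K, a ≠ 0 →
      ∃ B : ℕ, ∀ c : K, {P : OnePoint K | ∃ i j : ℕ, i < j ∧
        (oneOver fun y : K => a * y ^ d + c)^[i] P =
          (oneOver fun y : K => a * y ^ d + c)^[j] P}.encard ≤ B) ∧
    (∀ (K : Type) [Field K] [NumberField K] (m : ℕ), 4 ≤ m → ∀ G : K[X], 1 ≤ G.natDegree →
      ∃ B : ℕ, ∀ c : K, {P : OnePoint K | P ∈ periodicPts
        (oneOver fun y : K => G.eval (y ^ m) + c)}.encard ≤ B) ∧
    (∀ (K : Type) [Field K] [NumberField K] (m e N : ℕ), 4 ≤ m → 1 ≤ e → N ≠ 0 →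
      ∃ (B : ℕ) (A : ℝ), ∀ G : K[X], G.Monic → G.natDegree = e →
        (∀ i, ∃ k : ℕ, IsIntegral ℤ ((N : K) ^ k * G.coeff i)) → ∀ c : K,
        A * (1 + ∑ i ∈ Finset.range e, logHeight₁ (G.coeff i)) ≤ logHeight₁ c →
        {P : OnePoint K | P ∈ periodicPts
          (oneOver fun y : K => G.eval (y ^ m) + c)}.encard ≤ B) := by
  have h : ∀ (K : Type) [Field K] (F : K → K), oneOver F = Pool.Agent.KS6_58.recip F := by
    intro K _ F
    funext P
    cases P <;> rfl
  refine ⟨fun K _ _ d hd a ha => ?_, fun K _ _ m hm G hG => ?_,
    fun K _ _ m e N hm he hN => ?_⟩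
  · obtain ⟨B, hB⟩ := Pool.Agent.KS6_58.mainR_a hd ha
    exact ⟨B, fun c => by rw [h]; exact hB c⟩
  · obtain ⟨B, hB⟩ := Pool.Agent.KS6_58.symR_fixed m hm G hG
    exact ⟨B, fun c => by rw [h]; exact hB c⟩
  · obtain ⟨B, A, hB⟩ := Pool.Agent.KS6_58.symR_unif K hm he hN
    exact ⟨B, A, fun G hG hGe hGN c hc => by rw [h]; exact hB G hG hGe hGN c hc⟩

end Pool.Agent.Results.MP_c076ed_nt.ReciprocalFamilies
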