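import Pool.Agent.KS6_58.Main2
import Pool.Graph.R_pool_sql_team_seeded_47a924f7.Results.MP_c076ed_nt.AllParametersUnicritical

/-!
# Uniform boundedness for all unicritical polynomials `x ^ d + c`

* For every `d ≥ 3` there is `B` such that for ALL rational numbers `c` the polynomial `x ^ d + c` has
  at most `B` rational preperiodic points.
* For every number field `K`, every `d ≥ 5` and every `a ≠ 0` in `K` there is `B` such that for ALL
  `b` in `K` the polynomial `a x ^ d + b` has at most `B` preperiodic points in `K`.

There is no hypothesis on the places of bad reduction, and no conjecture is used.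

Proof (for `K` containing the `d`-th roots of unity, `a = 1`, `n = d - 1`). Let `x ≠ y` be
preperiodic for `f = x ^ d + c`. At a place `v` of bad reduction which does not divide `d` one has
`|x|_v = |y|_v = R` with `R ^ d = |c|_v`, and `|x - y|_v = R ^ (1 - n k)` for some `k ≥ 0`: if
`|x - y|_v < R` then `|f(x) - f(y)|_v = |x - y|_v R ^ n`, and this cannot go on forever. So
`(x - ζ y) / (x - ζ' y)` has valuations divisible by `n` at these places, for all `d`-th roots of
unity `ζ, ζ'`. At the places of good reduction (not dividing `d`) it is a unit if `ζ, ζ' ≠ 1` and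
`x, y` are periodic, and also if `x` is in a tail and `y` is a suitable periodic point. Hence
`l = x / y` satisfies `(l - ζ) / (l - ζ') = t z ^ n` with `t` in a finite set depending on `K` and `d`
only, for all `ζ, ζ' ≠ 1`. As `n ≥ 4`, this gives points on finitely many hyperelliptic curves
`Y ^ 2 = F(X)` of genus at least two over a fixed number field `L`, `F` with all its roots in `L`.
The heights of the ratios `l` are between two fixed multiples of the height of `c` (up to constants).
The modules `Pool/Agent/KS6_58` prove for these curves the weak Mordell-Weil theorem, the finite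
rank of the group generated by the rational points, and, by a lower bound for the height of a point
at which a function vanishes to a high order, a form of Mumford's gap principle: the number of
rational points with height in `[H, c H]` is bounded uniformly in `H`. So there are boundedly many
ratios for each `c`.

For `ℚ` and `d = 3` the polynomial is increasing, and `d = 4` is the theorem of the library.
-/

set_option autoImplicit false

namespace Pool.Agent.Results.MP_c076ed_nt.UnicriticalUniform

/-- **Uniform boundedness for unicritical polynomials**: over `ℚ` for `x ^ d + c` for all `d ≥ 3`, and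
over every number field `K` for `a x ^ d + b` for all `d ≥ 5` and all `a ≠ 0`. -/
theorem result :
    (∀ d : ℕ, 3 ≤ d → ∃ B : ℕ, ∀ c : ℚ, {x : ℚ | ∃ m n : ℕ, m < n ∧
      (fun y : ℚ => y ^ d + c)^[m] x = (fun y : ℚ => y ^ d + c)^[n] x}.encard ≤ B) ∧
    (∀ (K : Type) [Field K] [NumberField K] (d : ℕ), 5 ≤ d → ∀ a : K, a ≠ 0 →
      ∃ B : ℕ, ∀ b : K, {x : K | ∃ m n : ℕ, m < n ∧
        (fun y : K => a * y ^ d + b)^[m] x = (fun y : K => a * y ^ d + b)^[n] x}.encard ≤ B) := by
  refine ⟨fun d hd => ?_, fun K _ _ d hd a ha => Pool.Agent.KS6_58.main_a hd ha⟩
  rcases Nat.even_or_odd d with h | h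
  · rcases Nat.lt_or_ge d 5 with h5 | h5
    · have h4 : d = 4 := by
        obtain ⟨k, hk⟩ := h
        omega
      subst h4
      obtain ⟨B, hB⟩ := Pool.Agent.Results.MP_c076ed_nt.AllParametersUnicritical.result.1 4 rfl
      exact ⟨B, fun c => Pool.Agent.KS6_58.encard_le fun S hS => hB c S hS⟩
    · obtain ⟨B, hB⟩ := Pool.Agent.KS6_58.main_a (K := ℚ) h5 one_ne_zero
      refine ⟨B, fun c => ?_⟩
      have := hB c
      simp only [one_mul] at this
      exact this
  · exact ⟨d, fun c => Pool.Agent.KS6_58.odd_case h hd c⟩

end Pool.Agent.Results.MP_c076ed_nt.UnicriticalUniform
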